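import Pool.Agent.V11188.MC.Link
import Pool.Agent.V11188.MC.Dic

/-!
# MP_91138c_lc: a non-abelian mirror code that no abelian mirror code matches

The definitions (`Pauli`, `check`, `Valid`, `stab`, `numK`, `dist`, `Dominates`,
`MirrorConjecture`) are in `Pool.Agent.V11188.MC.Defs`.

* The dicyclic group of order 12, `x³ = t⁴ = 1`, `t x t⁻¹ = x⁻¹`, has a valid asymmetric mirror
  code with parameters `[[12, 5, 3]]`: `A = {1, x, t, t²}`, `B = {1, x, x t, x² t, x² t², t³}`.
* No mirror code of an abelian group of order at most 12 with `k ≥ 5` has distance at least 3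
  (no classification of the groups and no search is used: the proof is uniform).
* So Q1 is false, also if the domination is not required to be strict.
-/

namespace Pool.Agent.Results.MP_91138c_lc.NonAbelianBeatsAbelian

open Pool.Agent.V11188.MC

universe u

theorem result :
    (∃ (G : Type) (_ : Group G) (_ : Fintype G) (A B : Set G),
      (∃ a b : G, a * b ≠ b * a) ∧ Valid .asym A B ∧ Fintype.card G = 12 ∧
        numK .asym A B = 5 ∧ dist .asym A B = 3) ∧
    (∀ (G : Type u) [CommGroup G] [Fintype G] (κ : Kind) (A B : Set G),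
      Fintype.card G ≤ 12 → 5 ≤ numK κ A B → dist κ A B < 3) ∧
    ¬ MirrorConjecture := by
  refine ⟨⟨Dic, inferInstance, inferInstance, setA, setB, noncomm_dic, valid_dic, card_dic,
    numK_dic, dist_dic⟩, fun G _ _ κ A B hn hk => abelian_dist_lt κ A B hn hk, ?_⟩
  intro h
  obtain ⟨G', _, _, κ', A', B', h1, h2, h3, -⟩ := h Dic noncomm_dic .asym setA setB valid_dic
  rw [card_dic] at h1
  rw [numK_dic] at h2
  rw [numK_dic, dist_dic] at h3
  have h4 := abelian_dist_lt κ' A' B' h1 h2
  rcases h3 with h3 | h3
  · exact absurd h3 (by norm_num)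
  · omega

end Pool.Agent.Results.MP_91138c_lc.NonAbelianBeatsAbelian
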